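import Pool.Agent.Helper55.FR.GoalsA

set_option autoImplicit false

namespace Pool.Agent.Helper90.FR

open Finset Pool.Agent.Helper55.FR

theorem glon (hidf : IdfStmt) (hskf : SkfStmt) (hidm : IdmStmt) (hcut : CutStmt) (hfit : FitStmt) :
    GlonStmt := by
  intro V _ _ n m h g B T I Q hc h0 h1 hg hexp hB hbar hbig
  obtain ⟨f, hf, hF⟩ := hcut V n m B g T I Q hbar.pre
  obtain ⟨hadm, hdis⟩ := hfit V n m B g T I Q f hc hB hbar.pre hf
  have e1 := hidf V n m B g T I Q f hbar.pre hf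
  have e2 := hskf V n m B g T I Q f hbar.pre hf
  have e3 := hidm V n m B g T I Q hc.mm hbar.pre
  have e4 := hbar.sur
  have hpre := hbar.pre
  -- sizes of the members
  have hsm : ∀ K ∈ Q, 2 * K.card ≤ Fintype.card V := by
    intro K hK
    have hd : Disjoint (T ∪ I) K := by
      rw [Finset.disjoint_union_left]
      exact ⟨hpre.tK K hK, hpre.iK K hK⟩
    have hc1 : ((T ∪ I) ∪ K).card = T.card + I.card + K.card := by
      rw [Finset.card_union_of_disjoint hd, Finset.card_union_of_disjoint hpre.tI]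
    have hc2 : ((T ∪ I) ∪ K).card ≤ Fintype.card V := Finset.card_le_univ _
    omega
  have hK1 : ∀ K ∈ Q, h * (K.card : ℝ) ≤ ((2 * dF n K : ℕ) : ℝ) + ((dM m K : ℕ) : ℝ) := by
    intro K hK
    have := hexp K (hsm K hK)
    push_cast
    exact this
  have hK2 : ∀ K ∈ Q, h * (g : ℝ) ≤ h * (K.card : ℝ) := by
    intro K hK
    have : (g : ℝ) ≤ (K.card : ℝ) := by exact_mod_cast hpre.big K hK
    exact mul_le_mul_of_nonneg_left this h0.le
  have hs1 : ∑ K ∈ Q, h * (K.card : ℝ) ≤ ((∑ K ∈ Q, 2 * dF n K : ℕ) : ℝ) +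
      ((∑ K ∈ Q, dM m K : ℕ) : ℝ) := by
    push_cast
    rw [← Finset.sum_add_distrib]
    apply Finset.sum_le_sum
    intro K hK
    have := hK1 K hK
    push_cast at this
    exact this
  have hs2 : (Q.card : ℝ) * (h * (g : ℝ)) ≤ ∑ K ∈ Q, h * (K.card : ℝ) := by
    have := Finset.sum_le_sum hK2
    rw [Finset.sum_const, nsmul_eq_mul] at this
    exact this
  obtain ⟨s, hs⟩ : ∃ s, s = (Spc n f).card := ⟨_, rfl⟩
  obtain ⟨DM, hDM⟩ : ∃ d, d = ∑ K ∈ Q, dM m K := ⟨_, rfl⟩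
  obtain ⟨DF, hDF⟩ : ∃ d, d = ∑ K ∈ Q, 2 * dF n K := ⟨_, rfl⟩
  obtain ⟨b, hb⟩ : ∃ b, b = (Bad m f).card := ⟨_, rfl⟩
  obtain ⟨F, hFd⟩ : ∃ F, F = (Full m T I Q).card := ⟨_, rfl⟩
  obtain ⟨p, hp⟩ : ∃ p, p = Q.card := ⟨_, rfl⟩
  obtain ⟨tm, htm⟩ : ∃ t, t = (T.filter fun x => m x ∈ T).card := ⟨_, rfl⟩
  rw [← hs] at e1 e2
  rw [← hDF] at e2
  rw [← hDM, ← hFd, ← htm] at e3
  rw [← hp] at e4
  rw [← hFd, ← hb] at hF
  rw [← hDF, ← hDM] at hs1
  rw [← hp] at hs2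
  have n1 : s + 4 ≤ 2 * p := by omega
  have n2 : DM + tm + 2 ≤ F + p := by omega
  have n3 : DF ≤ s := e2
  have r1 : (s : ℝ) + 4 ≤ 2 * p := by exact_mod_cast n1
  have r2 : (DM : ℝ) + tm + 2 ≤ F + p := by exact_mod_cast n2
  have r3 : (DF : ℝ) ≤ s := by exact_mod_cast n3
  have r4 : (F : ℝ) ≤ 2 * b := by exact_mod_cast hF
  have r5 : (0 : ℝ) ≤ p := Nat.cast_nonneg _
  have r6 : (0 : ℝ) ≤ tm := Nat.cast_nonneg _
  have r7 : (0 : ℝ) ≤ s := Nat.cast_nonneg _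
  have r9 : (0 : ℝ) ≤ DM := Nat.cast_nonneg _
  have r8 : (24 : ℝ) * p ≤ p * (h * g) := by
    rw [mul_comm]
    exact mul_le_mul_of_nonneg_left hg r5
  have q1 : ∑ K ∈ Q, h * (K.card : ℝ) ≤ F + 3 * p := by linarith
  have q2 : (21 : ℝ) * p ≤ F := by linarith
  have q3 : (p : ℝ) * (h * g) ≤ 8 / 7 * F := by linarith
  have q4 : (2 : ℝ) ≤ p := by linarith
  have q0 : (0 : ℝ) ≤ h * g := by linarith
  have hKs : ((Ks f).card : ℝ) ≤ ∑ K ∈ Q, (K.card : ℝ) := by
    have h2 : (Ks f).card ≤ ∑ K ∈ Q, K.card := by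
      refine le_trans (Finset.card_le_card ?_) Finset.card_biUnion_le
      intro x hx
      have hx' : isK (f x) := (Finset.mem_filter.mp hx).2
      obtain ⟨K, hK, hxK⟩ := (hf.fK x).mp hx'
      exact Finset.mem_biUnion.mpr ⟨K, hK, hxK⟩
    exact_mod_cast h2
  have hTT : (TT m f).card = tm := by
    rw [htm]
    congr 1
    ext x
    simp only [TT, Finset.mem_filter, Finset.mem_univ, true_and, hf.fT]
  have hMK : (MK m f).card ≤ DM := by
    rw [hDM]
    refine le_trans (Finset.card_le_card (t := Q.biUnion fun K => K.filter fun x => m x ∉ K) ?_)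
      Finset.card_biUnion_le
    intro x hx
    obtain ⟨hx1, hx2⟩ := (Finset.mem_filter.mp hx).2
    obtain ⟨K, hK, hxK⟩ := (hf.fK x).mp hx1
    refine Finset.mem_biUnion.mpr ⟨K, hK, Finset.mem_filter.mpr ⟨hxK, ?_⟩⟩
    intro hm
    exact hx2 ((hf.fK (m x)).mpr ⟨K, hK, hm⟩)
  refine ⟨f, hf, ⟨?_, hadm, ?_, ?_, ?_, ?_⟩, hdis⟩
  · intro x hx
    rcases hbar.cov x with h2 | h2 | ⟨K, hK, h2⟩
    · rw [(hf.fT x).mpr h2] at hx
      exact absurd hx (by decide)
    · rw [(hf.fI x).mpr h2] at hx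
      exact absurd hx (by decide)
    · have := (hf.fK x).mpr ⟨K, hK, h2⟩
      rw [hx] at this
      rcases this with h3 | h3
      · exact absurd h3 (by decide)
      · exact absurd h3 (by decide)
  · rw [← hb]
    have h2 : h * ((Ks f).card : ℝ) ≤ ∑ K ∈ Q, h * (K.card : ℝ) := by
      rw [← Finset.mul_sum]
      exact mul_le_mul_of_nonneg_left hKs h0.le
    linarith
  · rw [← hb, ← hs]
    have h2 : h * g * s ≤ 2 * (p * (h * g)) := by
      have : (h * g) * (s : ℝ) ≤ (h * g) * (2 * p) :=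
        mul_le_mul_of_nonneg_left (by linarith) q0
      linarith
    linarith
  · rw [hTT, ← hb]
    have h2 : (MK m f).card ≤ DM := hMK
    have h3 : (tm : ℝ) + DM ≤ 3 * b := by linarith
    have h4 : tm + DM ≤ 3 * b := by exact_mod_cast h3
    omega
  · rw [← hb]
    have h2 : h * g ≤ p * (h * g) := by
      have : (1 : ℝ) * (h * g) ≤ p * (h * g) := mul_le_mul_of_nonneg_right (by linarith) q0
      linarith
    linarith

end Pool.Agent.Helper90.FR
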